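import Pool.Agent.Y552.SJ.Stm

/-!
# Factorisation of a positive matrix with a fixed vector through a stochastic matrix
-/

set_option autoImplicit false

namespace Pool.Agent.Y930.SJ.Sto

open Matrix Finset

theorem subring_dense (S : Subring ℝ) (hS : S ≠ ⊥) : Dense (S : Set ℝ) := by
  rcases S.toAddSubgroup.dense_or_cyclic with h | ⟨a, ha⟩
  · exact h
  · exfalso
    apply hS
    have hmem : ∀ x : ℝ, x ∈ S ↔ ∃ n : ℤ, n • a = x := by
      intro x
      have h1 : x ∈ S ↔ x ∈ S.toAddSubgroup := Iff.rfl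
      rw [h1, ha, AddSubgroup.mem_closure_singleton]
    obtain ⟨n, hn⟩ := (hmem 1).mp S.one_mem
    have haS : a ∈ S := (hmem a).mpr ⟨1, one_zsmul a⟩
    obtain ⟨m, hm⟩ := (hmem (a * a)).mp (S.mul_mem haS haS)
    rw [zsmul_eq_mul] at hn hm
    have ha0 : a ≠ 0 := by
      rintro rfl
      simp at hn
    have ham : a = m := by
      have := mul_right_cancel₀ ha0 hm
      exact this.symm
    have hnm : n * m = 1 := by
      rw [ham] at hn
      exact_mod_cast hn
    rw [eq_bot_iff]
    intro x hx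
    obtain ⟨k, hk⟩ := (hmem x).mp hx
    rw [Subring.mem_bot]
    refine ⟨k * m, ?_⟩
    rw [← hk, zsmul_eq_mul, ham]
    push_cast
    ring

theorem between (S : Subring ℝ) (hS : S ≠ ⊥) (a b : ℝ) (hab : a < b) :
    ∃ s ∈ S, a < s ∧ s < b := by
  obtain ⟨s, hs, h1, h2⟩ := (subring_dense S hS).exists_between hab
  exact ⟨s, hs, h1, h2⟩

/-- approximation of a vector orthogonal to `v` by such vectors over `S` -/
lemma approx (S : Subring ℝ) (hS : S ≠ ⊥) {q : ℕ} (v : Fin q → ℝ) (hvS : ∀ i, v i ∈ S)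
    (hv : ∀ i, 0 < v i) (o : Fin q) (y : Fin q → ℝ) (hy : ∑ j, y j * v j = 0) (η : ℝ)
    (hη : 0 < η) : ∃ h : Fin q → ℝ, (∀ j, h j ∈ S) ∧ ∑ j, h j * v j = 0 ∧
      ∀ j, |h j - y j| < η := by
  set V : ℝ := ∑ j, v j with hV
  have hoV : v o ≤ V := Finset.single_le_sum (fun j _ => (hv j).le) (mem_univ o)
  have hV0 : 0 < V := lt_of_lt_of_le (hv o) hoV
  set δ : ℝ := η / (4 * V) with hδ
  have hδ0 : 0 < δ := by positivity
  have hc : ∀ j, ∃ c ∈ S, y j / v o - δ < c ∧ c < y j / v o + δ :=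
    fun j => between S hS _ _ (by linarith)
  choose c hcS hc1 hc2 using hc
  have hcd : ∀ j, |c j - y j / v o| ≤ δ := by
    intro j
    rw [abs_le]
    exact ⟨by linarith [hc1 j], by linarith [hc2 j]⟩
  have hvo : v o ≠ 0 := (hv o).ne'
  refine ⟨fun i => c i * v o - if i = o then ∑ j, c j * v j else 0, fun i => ?_, ?_, fun i => ?_⟩
  · refine S.sub_mem (S.mul_mem (hcS i) (hvS o)) ?_
    split_ifs
    · exact S.sum_mem fun j _ => S.mul_mem (hcS j) (hvS j)
    · exact S.zero_mem
  · simp only [sub_mul, Finset.sum_sub_distrib, ite_mul, zero_mul]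
    rw [Finset.sum_ite_eq' univ o (fun i => (∑ j, c j * v j) * v i), if_pos (mem_univ o),
      Finset.sum_mul]
    rw [sub_eq_zero]
    exact Finset.sum_congr rfl fun j _ => by ring
  · have h1 : (c i * v o - if i = o then ∑ j, c j * v j else 0) - y i
        = (c i - y i / v o) * v o - if i = o then ∑ j, (c j - y j / v o) * v j else 0 := by
      have h2 : ∑ j, (c j - y j / v o) * v j = ∑ j, c j * v j := by
        have h3 : ∀ j, (c j - y j / v o) * v j = c j * v j - (1 / v o) * (y j * v j) := by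
          intro j; ring
        simp only [h3]
        rw [Finset.sum_sub_distrib, ← Finset.mul_sum, hy, mul_zero, sub_zero]
      rw [h2]
      have h4 : (c i - y i / v o) * v o = c i * v o - y i := by field_simp
      rw [h4]
      ring
    rw [h1]
    have h5 : |(c i - y i / v o) * v o| ≤ δ * V := by
      rw [abs_mul, abs_of_pos (hv o)]
      exact mul_le_mul (hcd i) hoV (hv o).le hδ0.le
    have h6 : |if i = o then ∑ j, (c j - y j / v o) * v j else 0| ≤ δ * V := by
      split_ifs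
      · refine (Finset.abs_sum_le_sum_abs _ _).trans ?_
        rw [hV, Finset.mul_sum]
        refine Finset.sum_le_sum fun j _ => ?_
        rw [abs_mul, abs_of_pos (hv j)]
        exact mul_le_mul_of_nonneg_right (hcd j) (hv j).le
      · rw [abs_zero]; positivity
    have h7 : δ * V = η / 4 := by rw [hδ]; field_simp
    calc _ ≤ |(c i - y i / v o) * v o| + |if i = o then ∑ j, (c j - y j / v o) * v j else 0| :=
          abs_sub _ _
      _ ≤ η / 4 + η / 4 := by rw [← h7]; exact add_le_add h5 h6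
      _ < η := by linarith

/-- the vector `v_a e_b - v_b e_a` -/
def kap {q : ℕ} (v : Fin q → ℝ) (a b j : Fin q) : ℝ :=
  (if j = b then v a else 0) - (if j = a then v b else 0)

lemma kap_self {q : ℕ} (v : Fin q → ℝ) (a j : Fin q) : kap v a a j = 0 := sub_self _

lemma kap_v {q : ℕ} (v : Fin q → ℝ) (a b : Fin q) : ∑ j, kap v a b j * v j = 0 := by
  unfold kap
  simp only [sub_mul, ite_mul, zero_mul, Finset.sum_sub_distrib]
  rw [Finset.sum_ite_eq' univ b (fun j => v a * v j), Finset.sum_ite_eq' univ a (fun j => v b * v j)]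
  simp only [mem_univ, if_true]
  ring

lemma kap_sum {q : ℕ} (v : Fin q → ℝ) (j : Fin q) : ∑ a, ∑ b, kap v a b j = 0 := by
  unfold kap
  simp only [Finset.sum_sub_distrib]
  have h1 : ∀ a : Fin q, ∑ b, (if j = b then v a else 0) = v a := by
    intro a
    rw [Finset.sum_ite_eq univ j (fun _ => v a), if_pos (mem_univ j)]
  have h2 : ∑ a : Fin q, ∑ b, (if j = a then v b else 0) = ∑ b, v b := by
    rw [Finset.sum_comm]
    refine Finset.sum_congr rfl fun b _ => ?_
    rw [Finset.sum_ite_eq univ j (fun _ => v b), if_pos (mem_univ j)]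
  rw [h2]
  simp only [h1, sub_self]

lemma kap_id {q : ℕ} (v w y : Fin q → ℝ) (hw : ∑ i, w i * v i = 1) (hy : ∑ j, y j * v j = 0)
    (j : Fin q) : ∑ a, ∑ b, (y b * w a) * kap v a b j = y j := by
  unfold kap
  simp only [mul_sub, mul_ite, mul_zero, Finset.sum_sub_distrib]
  have h1 : ∀ a : Fin q, ∑ b, (if j = b then y b * w a * v a else 0) = y j * w a * v a := by
    intro a
    rw [Finset.sum_ite_eq univ j (fun b => y b * w a * v a), if_pos (mem_univ j)]
  have h2 : ∑ a : Fin q, ∑ b, (if j = a then y b * w a * v b else 0)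
      = ∑ b, y b * w j * v b := by
    rw [Finset.sum_comm]
    refine Finset.sum_congr rfl fun b _ => ?_
    rw [Finset.sum_ite_eq univ j (fun a => y b * w a * v b), if_pos (mem_univ j)]
  rw [h2]
  simp only [h1]
  have h3 : ∑ a, y j * w a * v a = y j := by
    calc ∑ a, y j * w a * v a = y j * ∑ a, w a * v a := by
          rw [Finset.mul_sum]; exact Finset.sum_congr rfl fun a _ => by ring
      _ = y j := by rw [hw, mul_one]
  have h4 : ∑ b, y b * w j * v b = 0 := by
    calc ∑ b, y b * w j * v b = w j * ∑ b, y b * v b := by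
          rw [Finset.mul_sum]; exact Finset.sum_congr rfl fun a _ => by ring
      _ = 0 := by rw [hy, mul_zero]
  rw [h3, h4, sub_zero]

/-- the entries of the blocks of `R` -/
noncomputable def rr {q : ℕ} (w y : Fin q → ℝ) (Kf : Bool → ℝ) (o : Fin q) (x e : ℝ)
    (p : (Fin q × Fin q) × Bool) : ℝ :=
  x + Kf p.2 * (y p.1.2 * w p.1.1) + (if p = ((o, o), true) then
    e - ∑ p' : (Fin q × Fin q) × Bool, Kf p'.2 * (y p'.1.2 * w p'.1.1) else 0)

lemma rr_sum {q : ℕ} (v w y : Fin q → ℝ) (Kf sg : Bool → ℝ) (o : Fin q) (x e t vl : ℝ)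
    (hw : ∑ i, w i * v i = 1) (hy : ∑ j, y j * v j = 0)
    (hK : Kf true * sg true + Kf false * sg false = 1) (he : e = vl - 2 * (q : ℝ) ^ 2 * x)
    (j : Fin q) :
    ∑ p : (Fin q × Fin q) × Bool, rr w y Kf o x e p * (t + sg p.2 * kap v p.1.1 p.1.2 j)
      = vl * t + y j := by
  have h1 : ∑ p : (Fin q × Fin q) × Bool, rr w y Kf o x e p = vl := by
    unfold rr
    rw [Finset.sum_add_distrib, Finset.sum_add_distrib, Finset.sum_ite_eq' univ ((o, o), true)
      (fun _ => e - ∑ p' : (Fin q × Fin q) × Bool, Kf p'.2 * (y p'.1.2 * w p'.1.1)),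
      if_pos (mem_univ _), Finset.sum_const, he]
    simp only [card_univ, Fintype.card_prod, Fintype.card_fin, Fintype.card_bool, nsmul_eq_mul]
    push_cast
    ring
  have h2 : ∑ p : (Fin q × Fin q) × Bool, sg p.2 * kap v p.1.1 p.1.2 j = 0 := by
    rw [Fintype.sum_prod_type]
    have h3 : ∀ ab : Fin q × Fin q, ∑ b : Bool, sg b * kap v ab.1 ab.2 j
        = (sg true + sg false) * kap v ab.1 ab.2 j := by
      intro ab; rw [Fintype.sum_bool]; ring
    simp only [h3]
    rw [← Finset.mul_sum, Fintype.sum_prod_type, kap_sum, mul_zero]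
  have h3 : ∑ p : (Fin q × Fin q) × Bool,
      (Kf p.2 * (y p.1.2 * w p.1.1)) * (sg p.2 * kap v p.1.1 p.1.2 j) = y j := by
    rw [Fintype.sum_prod_type]
    have h4 : ∀ ab : Fin q × Fin q, ∑ b : Bool,
        (Kf b * (y ab.2 * w ab.1)) * (sg b * kap v ab.1 ab.2 j)
        = (y ab.2 * w ab.1) * kap v ab.1 ab.2 j := by
      intro ab
      rw [Fintype.sum_bool]
      calc _ = (Kf true * sg true + Kf false * sg false) *
            ((y ab.2 * w ab.1) * kap v ab.1 ab.2 j) := by ring
        _ = _ := by rw [hK, one_mul]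
    simp only [h4]
    rw [Fintype.sum_prod_type]
    exact kap_id v w y hw hy j
  have h5 : ∀ p : (Fin q × Fin q) × Bool, rr w y Kf o x e p * (t + sg p.2 * kap v p.1.1 p.1.2 j)
      = rr w y Kf o x e p * t + x * (sg p.2 * kap v p.1.1 p.1.2 j)
        + (Kf p.2 * (y p.1.2 * w p.1.1)) * (sg p.2 * kap v p.1.1 p.1.2 j) := by
    intro p
    have h6 : (if p = ((o, o), true) then
        e - ∑ p' : (Fin q × Fin q) × Bool, Kf p'.2 * (y p'.1.2 * w p'.1.1) else 0)
        * (sg p.2 * kap v p.1.1 p.1.2 j) = 0 := by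
      split_ifs with hp
      · rw [hp]
        simp only [kap_self, mul_zero]
      · rw [zero_mul]
    have h7 : rr w y Kf o x e p * (t + sg p.2 * kap v p.1.1 p.1.2 j)
        = rr w y Kf o x e p * t + (x + Kf p.2 * (y p.1.2 * w p.1.1)) *
          (sg p.2 * kap v p.1.1 p.1.2 j) + (if p = ((o, o), true) then
        e - ∑ p' : (Fin q × Fin q) × Bool, Kf p'.2 * (y p'.1.2 * w p'.1.1) else 0)
        * (sg p.2 * kap v p.1.1 p.1.2 j) := by
      unfold rr
      ring
    rw [h7, h6]
    ring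
  simp only [h5]
  rw [Finset.sum_add_distrib, Finset.sum_add_distrib, ← Finset.sum_mul, h1, ← Finset.mul_sum, h2,
    h3]
  ring

theorem main : Pool.Agent.Y552.SJ.S_STO := by
  intro S hS q M v w hMS hM hvS hv hwS hMv hwv
  -- an index
  have hq : 0 < q := by
    rcases Nat.eq_zero_or_pos q with h | h
    · subst h
      simp at hwv
    · exact h
  let o : Fin q := ⟨0, hq⟩
  have hqR : (0 : ℝ) < q := by exact_mod_cast hq
  -- bounds
  obtain ⟨μ, hμ0, hμ⟩ : ∃ μ : ℝ, 0 < μ ∧ ∀ k j, μ ≤ M k j / v k := by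
    obtain ⟨⟨k, j⟩, -, hmin⟩ := Finset.exists_min_image (univ : Finset (Fin q × Fin q))
      (fun p => M p.1 p.2 / v p.1) ⟨(o, o), mem_univ _⟩
    exact ⟨M k j / v k, div_pos (hM k j) (hv k), fun k' j' => hmin (k', j') (mem_univ _)⟩
  set V : ℝ := ∑ j, v j with hV
  have hvV : ∀ j, v j ≤ V := fun j => Finset.single_le_sum (fun j _ => (hv j).le) (mem_univ j)
  have hV0 : 0 < V := lt_of_lt_of_le (hv o) (hvV o)
  set W : ℝ := 1 + ∑ j, |w j| with hW
  have hwW : ∀ j, |w j| ≤ W := by
    intro j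
    have := Finset.single_le_sum (f := fun j => |w j|) (fun j _ => abs_nonneg (w j)) (mem_univ j)
    linarith
  have hW0 : 0 < W := lt_of_lt_of_le one_pos (by
    have : 0 ≤ ∑ j, |w j| := Finset.sum_nonneg fun j _ => abs_nonneg (w j)
    linarith)
  -- the numbers `s`, `K`, `s'`
  obtain ⟨s, hsS, hs0, hs1⟩ := between S hS 0 (min 1 (μ / (4 * V))) (by positivity)
  have hsμ : s * V ≤ μ / 4 := by
    have h1 : s < μ / (4 * V) := lt_of_lt_of_le hs1 (min_le_right _ _)
    rw [lt_div_iff₀ (by positivity)] at h1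
    linarith
  obtain ⟨K, hK⟩ : ∃ K : ℕ, K = ⌊1 / s⌋₊ := ⟨_, rfl⟩
  have hKs : (K : ℝ) * s ≤ 1 := by
    have := Nat.floor_le (show 0 ≤ 1 / s by positivity)
    rw [← hK, le_div_iff₀ hs0] at this
    exact this
  have hKs' : 1 < ((K : ℝ) + 1) * s := by
    have := Nat.lt_floor_add_one (1 / s)
    rw [← hK, div_lt_iff₀ hs0] at this
    exact this
  let sg : Bool → ℝ := fun b => if b then s else 1 - K * s
  let Kf : Bool → ℝ := fun b => if b then (K : ℝ) else 1
  have hsgS : ∀ b, sg b ∈ S := by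
    intro b
    cases b
    · exact S.sub_mem S.one_mem (S.mul_mem (natCast_mem S K) hsS)
    · exact hsS
  have hKfS : ∀ b, Kf b ∈ S := by
    intro b
    cases b
    · exact S.one_mem
    · exact natCast_mem S K
  have hsg0 : ∀ b, 0 ≤ sg b := by
    intro b
    cases b
    · change 0 ≤ 1 - K * s
      linarith
    · exact hs0.le
  have hsgs : ∀ b, sg b ≤ s := by
    intro b
    cases b
    · change 1 - K * s ≤ s
      linarith
    · exact le_rfl
  have hK0 : (0 : ℝ) ≤ K := Nat.cast_nonneg K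
  have hKf0 : ∀ b, 0 ≤ Kf b := by
    intro b
    cases b
    · exact zero_le_one
    · exact hK0
  have hKfK : ∀ b, Kf b ≤ K + 1 := by
    intro b
    cases b
    · change (1 : ℝ) ≤ K + 1
      linarith
    · change (K : ℝ) ≤ K + 1
      linarith
  have hKsum : Kf true * sg true + Kf false * sg false = 1 := by
    change (K : ℝ) * s + 1 * (1 - K * s) = 1
    ring
  -- the precision
  obtain ⟨η, hη0, hη1, hη2⟩ : ∃ η : ℝ, 0 < η ∧ η ≤ μ / 4 ∧
      (2 * (q : ℝ) ^ 2 + 1) * ((K + 1) * (η * W)) ≤ 1 / (4 * (q : ℝ) ^ 2) := by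
    refine ⟨min (μ / 4) (1 / ((2 * (q : ℝ) ^ 2 + 1) * ((K + 1) * W) * (4 * (q : ℝ) ^ 2))),
      by positivity, min_le_left _ _, ?_⟩
    calc (2 * (q : ℝ) ^ 2 + 1) * ((K + 1) * (min (μ / 4)
          (1 / ((2 * (q : ℝ) ^ 2 + 1) * ((K + 1) * W) * (4 * (q : ℝ) ^ 2))) * W))
        ≤ (2 * (q : ℝ) ^ 2 + 1) * ((K + 1) *
          ((1 / ((2 * (q : ℝ) ^ 2 + 1) * ((K + 1) * W) * (4 * (q : ℝ) ^ 2))) * W)) := by
          gcongr
          exact min_le_right _ _
      _ = 1 / (4 * (q : ℝ) ^ 2) := by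
          field_simp
  -- the rows `t k`
  have ht : ∀ k, ∃ t : Fin q → ℝ, (∀ j, t j ∈ S) ∧ ∑ j, t j * v j = 1 ∧
      ∀ j, |t j - M k j / v k| < η := by
    intro k
    have hy : ∑ j, (M k j / v k - w j) * v j = 0 := by
      have h1 : ∀ j, (M k j / v k - w j) * v j = (1 / v k) * (M k j * v j) - w j * v j := by
        intro j; ring
      simp only [h1]
      rw [Finset.sum_sub_distrib, ← Finset.mul_sum, hMv k, hwv, one_div,
        inv_mul_cancel₀ (hv k).ne', sub_self]
    obtain ⟨h, hhS, hh0, hh⟩ := approx S hS v hvS hv o _ hy η hη0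
    refine ⟨fun j => w j + h j, fun j => S.add_mem (hwS j) (hhS j), ?_, fun j => ?_⟩
    · simp only [add_mul]
      rw [Finset.sum_add_distrib, hwv, hh0, add_zero]
    · have := hh j
      have e : w j + h j - M k j / v k = h j - (M k j / v k - w j) := by ring
      change |w j + h j - M k j / v k| < η
      rw [e]
      exact this
  choose t htS htv htM using ht
  -- the numbers `x k`
  have hx : ∀ k, ∃ x ∈ S, v k / (4 * (q : ℝ) ^ 2) < x ∧ x < v k / (2 * (q : ℝ) ^ 2) := by
    intro k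
    apply between S hS
    apply div_lt_div_of_pos_left (hv k) (by positivity)
    nlinarith [sq_nonneg (q : ℝ), pow_pos hqR 2]
  choose x hxS hx1 hx2 using hx
  obtain ⟨e, he⟩ : ∃ e : Fin q → ℝ, ∀ k, e k = v k - 2 * (q : ℝ) ^ 2 * x k := ⟨_, fun _ => rfl⟩
  have he0 : ∀ k, 0 < e k := by
    intro k
    have := hx2 k
    rw [lt_div_iff₀ (by positivity)] at this
    rw [he k]
    linarith
  have heS : ∀ k, e k ∈ S := by
    intro k
    rw [he k]
    refine S.sub_mem (hvS k) (S.mul_mem (S.mul_mem ?_ (S.pow_mem (natCast_mem S q) 2)) (hxS k))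
    exact_mod_cast natCast_mem S 2
  -- the rows `y k`
  obtain ⟨y, hy⟩ : ∃ y : Fin q → Fin q → ℝ, ∀ k j, y k j = M k j - v k * t k j :=
    ⟨_, fun _ _ => rfl⟩
  have hyS : ∀ k j, y k j ∈ S := by
    intro k j
    rw [hy k j]
    exact S.sub_mem (hMS k j) (S.mul_mem (hvS k) (htS k j))
  have hyv : ∀ k, ∑ j, y k j * v j = 0 := by
    intro k
    simp only [hy, sub_mul]
    rw [Finset.sum_sub_distrib, hMv k]
    have h1 : ∑ j, v k * t k j * v j = v k * ∑ j, t k j * v j := by
      rw [Finset.mul_sum]; exact Finset.sum_congr rfl fun j _ => by ring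
    rw [h1, htv k, mul_one, sub_self]
  have hyη : ∀ k j, |y k j| ≤ v k * η := by
    intro k j
    have h1 : y k j = v k * (-(t k j - M k j / v k)) := by
      rw [hy k j]
      have := (hv k).ne'
      field_simp
      ring
    rw [h1, abs_mul, abs_of_pos (hv k), abs_neg]
    exact mul_le_mul_of_nonneg_left (htM k j).le (hv k).le
  -- bound of the small terms
  have hA : ∀ k (p : (Fin q × Fin q) × Bool), |Kf p.2 * (y k p.1.2 * w p.1.1)|
      ≤ (K + 1) * (v k * (η * W)) := by
    intro k p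
    rw [abs_mul, abs_of_nonneg (hKf0 p.2), abs_mul]
    apply mul_le_mul (hKfK p.2) _ (by positivity) (by positivity)
    calc |y k p.1.2| * |w p.1.1| ≤ (v k * η) * W :=
          mul_le_mul (hyη k _) (hwW _) (abs_nonneg _) (by have := hv k; positivity)
      _ = v k * (η * W) := by ring
  have hAsum : ∀ k, |∑ p : (Fin q × Fin q) × Bool, Kf p.2 * (y k p.1.2 * w p.1.1)|
      ≤ 2 * (q : ℝ) ^ 2 * ((K + 1) * (v k * (η * W))) := by
    intro k
    refine (Finset.abs_sum_le_sum_abs _ _).trans ?_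
    calc ∑ p : (Fin q × Fin q) × Bool, |Kf p.2 * (y k p.1.2 * w p.1.1)|
        ≤ ∑ p : (Fin q × Fin q) × Bool, (K + 1) * (v k * (η * W)) :=
          Finset.sum_le_sum fun p _ => hA k p
      _ = 2 * (q : ℝ) ^ 2 * ((K + 1) * (v k * (η * W))) := by
          rw [Finset.sum_const]
          simp only [card_univ, Fintype.card_prod, Fintype.card_fin, Fintype.card_bool,
            nsmul_eq_mul]
          push_cast
          ring
  have hrr0 : ∀ k p, 0 < rr w (y k) Kf o (x k) (e k) p := by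
    intro k p
    have h1 := (abs_le.mp (hA k p)).1
    have h2 := (abs_le.mp (hAsum k)).2
    have h3 : (2 * (q : ℝ) ^ 2 + 1) * ((K + 1) * (v k * (η * W))) ≤ v k / (4 * (q : ℝ) ^ 2) := by
      calc (2 * (q : ℝ) ^ 2 + 1) * ((K + 1) * (v k * (η * W)))
          = v k * ((2 * (q : ℝ) ^ 2 + 1) * ((K + 1) * (η * W))) := by ring
        _ ≤ v k * (1 / (4 * (q : ℝ) ^ 2)) := mul_le_mul_of_nonneg_left hη2 (hv k).le
        _ = v k / (4 * (q : ℝ) ^ 2) := by ring
    have h4 := hx1 k
    have h5 := he0 k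
    have h6 : 0 ≤ 2 * (q : ℝ) ^ 2 * ((K + 1) * (v k * (η * W))) := by
      have := hv k
      positivity
    unfold rr
    split_ifs
    · linarith
    · linarith
  have hrrS : ∀ k p, rr w (y k) Kf o (x k) (e k) p ∈ S := by
    intro k p
    unfold rr
    refine S.add_mem (S.add_mem (hxS k) (S.mul_mem (hKfS _) (S.mul_mem (hyS k _) (hwS _)))) ?_
    split_ifs
    · exact S.sub_mem (heS k) (S.sum_mem fun p _ =>
        S.mul_mem (hKfS _) (S.mul_mem (hyS k _) (hwS _)))
    · exact S.zero_mem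
  -- the matrices
  let I := Fin q × ((Fin q × Fin q) × Bool)
  let R : Fin q → I → ℝ := fun l p => if l = p.1 then rr w (y l) Kf o (x l) (e l) p.2 else 0
  let T : I → Fin q → ℝ := fun p j => t p.1 j + sg p.2.2 * kap v p.2.1.1 p.2.1.2 j
  have hT0 : ∀ p j, 0 < T p j := by
    intro p j
    have h1 := (abs_lt.mp (htM p.1 j)).1
    have h2 := hμ p.1 j
    have h3 : -(μ / 4) ≤ sg p.2.2 * kap v p.2.1.1 p.2.1.2 j := by
      have h4 : -V ≤ kap v p.2.1.1 p.2.1.2 j := by
        unfold kap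
        have h5 := hvV p.2.1.2
        have h6 := (hv p.2.1.1).le
        split_ifs <;> linarith
      have h7 : sg p.2.2 * (-V) ≤ sg p.2.2 * kap v p.2.1.1 p.2.1.2 j :=
        mul_le_mul_of_nonneg_left h4 (hsg0 _)
      have h8 : sg p.2.2 * V ≤ s * V := mul_le_mul_of_nonneg_right (hsgs _) hV0.le
      linarith
    change 0 < t p.1 j + sg p.2.2 * kap v p.2.1.1 p.2.1.2 j
    linarith
  have hRT : ∀ l j, ∑ p, R l p * T p j = M l j := by
    intro l j
    have h1 : ∑ p : I, R l p * T p j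
        = ∑ k : Fin q, ∑ p : (Fin q × Fin q) × Bool, R l (k, p) * T (k, p) j :=
      Fintype.sum_prod_type _
    rw [h1, Finset.sum_eq_single l]
    · have h2 : ∀ p : (Fin q × Fin q) × Bool, R l (l, p) * T (l, p) j
          = rr w (y l) Kf o (x l) (e l) p * (t l j + sg p.2 * kap v p.1.1 p.1.2 j) := by
        intro p
        have h3 : R l (l, p) = rr w (y l) Kf o (x l) (e l) p := if_pos rfl
        rw [h3]
      simp only [h2]
      rw [rr_sum v w (y l) Kf sg o (x l) (e l) (t l j) (v l) hwv (hyv l) hKsum (he l) j, hy l j]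
      ring
    · intro k _ hk
      refine Finset.sum_eq_zero fun p _ => ?_
      have h3 : R l (k, p) = 0 := if_neg (fun h => hk h.symm)
      rw [h3, zero_mul]
    · intro h
      exact absurd (mem_univ l) h
  have hTR : ∀ p p', 0 < ∑ i, T p i * R i p' := by
    intro p p'
    rw [Finset.sum_eq_single p'.1]
    · have h3 : R p'.1 p' = rr w (y p'.1) Kf o (x p'.1) (e p'.1) p'.2 := if_pos rfl
      rw [h3]
      exact mul_pos (hT0 _ _) (hrr0 _ _)
    · intro i _ hi
      have h3 : R i p' = 0 := if_neg hi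
      rw [h3, mul_zero]
    · intro h
      exact absurd (mem_univ _) h
  have hTS : ∀ p j, T p j ∈ S := by
    intro p j
    refine S.add_mem (htS _ _) (S.mul_mem (hsgS _) ?_)
    unfold kap
    refine S.sub_mem ?_ ?_ <;> split_ifs
    · exact hvS _
    · exact S.zero_mem
    · exact hvS _
    · exact S.zero_mem
  have hRS : ∀ l p, R l p ∈ S := by
    intro l p
    change (if l = p.1 then rr w (y l) Kf o (x l) (e l) p.2 else 0) ∈ S
    split_ifs
    · exact hrrS _ _
    · exact S.zero_mem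
  have hTv : ∀ p, ∑ j, T p j * v j = 1 := by
    intro p
    change ∑ j, (t p.1 j + sg p.2.2 * kap v p.2.1.1 p.2.1.2 j) * v j = 1
    have h1 : ∀ j, (t p.1 j + sg p.2.2 * kap v p.2.1.1 p.2.1.2 j) * v j
        = t p.1 j * v j + sg p.2.2 * (kap v p.2.1.1 p.2.1.2 j * v j) := by
      intro j; ring
    simp only [h1]
    rw [Finset.sum_add_distrib, ← Finset.mul_sum, kap_v, htv, mul_zero, add_zero]
  let E : I ≃ Fin (Fintype.card I) := Fintype.equivFin I
  refine ⟨Fintype.card I, Matrix.of fun l n => R l (E.symm n), Matrix.of fun n j => T (E.symm n) j,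
    fun l n => hRS _ _, fun n j => hTS _ _, fun n n' => ?_, ?_, fun n => hTv _⟩
  · rw [Matrix.mul_apply]
    exact hTR (E.symm n) (E.symm n')
  · ext l j
    rw [Matrix.mul_apply]
    have h1 := Equiv.sum_comp E.symm (fun p => R l p * T p j)
    rw [hRT l j] at h1
    exact h1.symm

end Pool.Agent.Y930.SJ.Sto
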